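import Mathlib
import Pool.Agent.H68R2.BP.Props2

/-!
BP, task R_ab: bounded maps into a commutative corner.
-/

open scoped ComplexOrder InnerProductSpace ComplexConjugate Topology
open Finset Filter

noncomputable section

namespace H68R2.BP.Rabaux

open WeakDual WeakDual.CharacterSpace

/-- positive square root in a matrix algebra over a commutative C*-algebra -/
theorem sqrt_mat {B : Type} [CStarAlgebra B] (D : B) (hsa : IsSelfAdjoint D)
    (hs : ∀ z ∈ spectrum ℂ D, z.im = 0 ∧ 0 ≤ z.re) : ∃ E : B, star E * E = D := by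
  have hn : IsStarNormal D := hsa.isStarNormal
  let f : ℂ → ℂ := fun z => ((√z.re : ℝ) : ℂ)
  have hf : Continuous f := by fun_prop
  refine ⟨cfc f D, ?_⟩
  rw [← cfc_star, ← cfc_mul _ _ D (by fun_prop) (by fun_prop)]
  conv_rhs => rw [← cfc_id ℂ D]
  apply cfc_congr
  intro z hz
  obtain ⟨h1, h2⟩ := hs z hz
  simp only [f, id]
  rw [Complex.star_def, Complex.conj_ofReal, ← Complex.ofReal_mul, Real.mul_self_sqrt h2]
  apply Complex.ext
  · simp
  · simp [h1]

theorem spec_mat {A : Type} [CommCStarAlgebra A] {n : Type} [Fintype n] [DecidableEq n]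
    (D : CStarMatrix n n A)
    (h : ∀ (χ : characterSpace ℂ A) (v : n → ℂ), ∃ c : ℝ, 0 ≤ c ∧
      ∑ j, ∑ k, conj (v j) * χ (D j k) * v k = c) :
    ∀ z ∈ spectrum ℂ D, z.im = 0 ∧ 0 ≤ z.re := by
  intro z hz
  rw [spectrum.mem_iff] at hz
  set M : Matrix n n A := algebraMap ℂ (Matrix n n A) z - CStarMatrix.ofMatrix.symm D with hM
  have hMu : ¬ IsUnit M := by
    intro hu
    apply hz
    have := hu.map (CStarMatrix.ofMatrixRingEquiv (n := n) (A := A))
    exact this
  rw [Matrix.isUnit_iff_isUnit_det] at hMu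
  obtain ⟨χ, hχ⟩ := WeakDual.CharacterSpace.exists_apply_eq_zero hMu
  let φ : A →+* ℂ := (AlgHomClass.toAlgHom χ : A →ₐ[ℂ] ℂ).toRingHom
  have hφ : ∀ a, φ a = χ a := fun a => rfl
  have hdet : (φ.mapMatrix M).det = 0 := by
    rw [← RingHom.map_det, hφ, hχ]
  obtain ⟨v, hv0, hv⟩ := Matrix.exists_mulVec_eq_zero_iff.2 hdet
  have key : ∀ j, z * v j = ∑ k, χ (D j k) * v k := by
    intro j
    have h1 := congrFun hv j
    simp only [Matrix.mulVec, dotProduct, RingHom.mapMatrix_apply, Matrix.map_apply,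
      Pi.zero_apply] at h1
    have h2 : ∀ k, φ (M j k) * v k = (if j = k then z * v k else 0) - χ (D j k) * v k := by
      intro k
      have : M j k = (if j = k then algebraMap ℂ A z else 0) - D j k := by
        rw [hM, Matrix.sub_apply, Matrix.algebraMap_matrix_apply]
        rfl
      rw [this, map_sub, sub_mul, hφ, hφ]
      have hz1 : χ (algebraMap ℂ A z) = z := AlgHomClass.commutes χ z
      by_cases hjk : j = k
      · rw [if_pos hjk, if_pos hjk, hz1]
      · simp [hjk]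
    rw [sum_congr rfl (fun k _ => h2 k), sum_sub_distrib, sum_ite_eq] at h1
    simp only [mem_univ, if_true] at h1
    exact sub_eq_zero.1 h1
  obtain ⟨c, hc0, hc⟩ := h χ v
  have hsum : z * ((∑ j, ‖v j‖ ^ 2 : ℝ) : ℂ) = c := by
    rw [← hc, Complex.ofReal_sum, mul_sum]
    apply sum_congr rfl
    intro j _
    have : ∑ k, conj (v j) * χ (D j k) * v k = conj (v j) * (z * v j) := by
      rw [key j, mul_sum]
      apply sum_congr rfl
      intro k _
      ring
    rw [this, Complex.ofReal_pow, ← Complex.conj_mul']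
    ring
  have hpos : 0 < ∑ j, ‖v j‖ ^ 2 := by
    obtain ⟨j, hj⟩ := Function.ne_iff.1 hv0
    apply sum_pos' (fun i _ => by positivity)
    refine ⟨j, mem_univ _, ?_⟩
    have : v j ≠ 0 := hj
    positivity
  set s : ℝ := ∑ j, ‖v j‖ ^ 2
  have hz' : z = ((c / s : ℝ) : ℂ) := by
    rw [Complex.ofReal_div, eq_div_iff (by exact_mod_cast hpos.ne')]
    exact hsum
  rw [hz']
  refine ⟨Complex.ofReal_im _, ?_⟩
  rw [Complex.ofReal_re]
  positivity

theorem sqrt_cs {A : Type} [CommCStarAlgebra A] {n : Type} [Fintype n] [DecidableEq n]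
    (D : CStarMatrix n n A) (hsa : IsSelfAdjoint D)
    (h : ∀ (χ : characterSpace ℂ A) (v : n → ℂ), ∃ c : ℝ, 0 ≤ c ∧
      ∑ j, ∑ k, conj (v j) * χ (D j k) * v k = c) :
    ∃ E : CStarMatrix n n A, star E * E = D := by
  let _ := CStarAlgebra.spectralOrder A
  have _ := CStarAlgebra.spectralOrderedRing A
  exact sqrt_mat D hsa (spec_mat D h)

/-- the character estimate -/
theorem char_est {I J : Type} [Fintype I] [Fintype J] (t : I → J → ℂ) (K : ℝ)
    (h : ∀ (u : I → ℂ) (v : J → ℂ), ‖∑ i, ∑ j, (u i * v j) * t i j‖ ≤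
      K * √(∑ i, ‖u i‖ ^ 2) * √(∑ j, ‖v j‖ ^ 2)) (v : J → ℂ) :
    ∑ i, ‖∑ j, t i j * v j‖ ^ 2 ≤ K ^ 2 * ∑ j, ‖v j‖ ^ 2 := by
  set S : ℝ := ∑ i, ‖∑ j, t i j * v j‖ ^ 2 with hS
  have hS0 : 0 ≤ S := sum_nonneg fun i _ => by positivity
  have hV0 : 0 ≤ ∑ j, ‖v j‖ ^ 2 := sum_nonneg fun i _ => by positivity
  have h1 := h (fun i => conj (∑ j, t i j * v j)) v
  have h2 : ∑ i, ∑ j, (conj (∑ j, t i j * v j) * v j) * t i j = (S : ℂ) := by
    rw [hS, Complex.ofReal_sum]
    apply sum_congr rfl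
    intro i _
    rw [Complex.ofReal_pow, ← Complex.conj_mul', mul_sum]
    apply sum_congr rfl
    intro j _
    ring
  have h3 : ∑ i, ‖conj (∑ j, t i j * v j)‖ ^ 2 = S := by
    rw [hS]
    apply sum_congr rfl
    intro i _
    rw [RCLike.norm_conj]
  rw [h2, h3, Complex.norm_real, Real.norm_of_nonneg hS0] at h1
  rcases hS0.eq_or_lt with h0 | h0
  · rw [← h0]; positivity
  · have h4 : √S * √S ≤ √S * (K * √(∑ j, ‖v j‖ ^ 2)) := by
      rw [Real.mul_self_sqrt hS0]
      linarith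
    have h5 := le_of_mul_le_mul_left h4 (Real.sqrt_pos.2 h0)
    have h6 : √S ^ 2 ≤ (K * √(∑ j, ‖v j‖ ^ 2)) ^ 2 :=
      pow_le_pow_left₀ (Real.sqrt_nonneg _) h5 2
    rwa [Real.sq_sqrt hS0, mul_pow, Real.sq_sqrt hV0] at h6

variable {H : Type} [NormedAddCommGroup H] [InnerProductSpace ℂ H] [CompleteSpace H]

omit [CompleteSpace H] in
theorem nsq (x : H) : ((‖x‖ ^ 2 : ℝ) : ℂ) = ⟪x, x⟫_ℂ := by
  have := inner_self_eq_norm_sq_to_K (𝕜 := ℂ) x
  rw [this]
  push_cast
  rfl

theorem quad {ι J : Type} [Fintype ι] [Fintype J] (B : ι → J → (H →L[ℂ] H)) (ξ : J → H) :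
    ∑ j, ∑ k, ⟪ξ j, (∑ i, star (B i j) * B i k) (ξ k)⟫_ℂ =
      ((∑ i, ‖∑ j, B i j (ξ j)‖ ^ 2 : ℝ) : ℂ) := by
  have h1 : ∀ j k, ⟪ξ j, (∑ i, star (B i j) * B i k) (ξ k)⟫_ℂ =
      ∑ i, ⟪B i j (ξ j), B i k (ξ k)⟫_ℂ := by
    intro j k
    rw [_root_.sum_apply, inner_sum]
    apply sum_congr rfl
    intro i _
    rw [mul_apply_eq_comp, ContinuousLinearMap.star_eq_adjoint,
      ContinuousLinearMap.adjoint_inner_right]
  simp_rw [h1]
  have h2 : ∀ i, ((‖∑ j, B i j (ξ j)‖ ^ 2 : ℝ) : ℂ) =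
      ∑ j, ∑ k, ⟪B i j (ξ j), B i k (ξ k)⟫_ℂ := by
    intro i
    rw [nsq, sum_inner]
    apply sum_congr rfl
    intro j _
    rw [inner_sum]
  rw [Complex.ofReal_sum, sum_congr rfl (fun i _ => h2 i)]
  exact (sum_congr rfl fun j _ => sum_comm).trans sum_comm


/-- the commutative C*-algebra generated by a commutative selfadjoint set -/
theorem comm_cc {N : Set (H →L[ℂ] H)} (hc : ∀ a ∈ N, ∀ b ∈ N, a * b = b * a)
    (hs : ∀ a ∈ N, star a ∈ N) :
    ∀ x ∈ (StarSubalgebra.centralizer ℂ (StarSubalgebra.centralizer ℂ N : Set (H →L[ℂ] H))),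
    ∀ y ∈ (StarSubalgebra.centralizer ℂ (StarSubalgebra.centralizer ℂ N : Set (H →L[ℂ] H))),
      x * y = y * x := by
  intro x hx y hy
  rw [StarSubalgebra.mem_centralizer_iff] at hx hy
  have hN : ∀ a ∈ N, a ∈ (StarSubalgebra.centralizer ℂ N : Set (H →L[ℂ] H)) := by
    intro a ha
    rw [SetLike.mem_coe, StarSubalgebra.mem_centralizer_iff]
    intro g hg
    exact ⟨hc g hg a ha, hc _ (hs g hg) a ha⟩
  have hy' : y ∈ (StarSubalgebra.centralizer ℂ N : Set (H →L[ℂ] H)) := by
    rw [SetLike.mem_coe, StarSubalgebra.mem_centralizer_iff]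
    intro g hg
    exact hy g (hN g hg)
  exact ((hx y hy').1).symm

end H68R2.BP.Rabaux

namespace H68R2.BP

open H759R2.Kad H744R2.KZ Rabaux WeakDual WeakDual.CharacterSpace

theorem prove_R_ab : R_ab := by
  intro H _ _ _ N p hp hNc hpN hN hNs hpa Q C hC hQ hQN I J _ _ a K ha ξ
  classical
  set A : StarSubalgebra ℂ (H →L[ℂ] H) :=
    StarSubalgebra.centralizer ℂ (StarSubalgebra.centralizer ℂ N : Set (H →L[ℂ] H)) with hA
  have hcl : IsClosed (A : Set (H →L[ℂ] H)) := by
    rw [hA, StarSubalgebra.coe_centralizer]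
    exact Set.isClosed_centralizer _
  have hcomm : ∀ x ∈ A, ∀ y ∈ A, x * y = y * x :=
    comm_cc (fun a ha b hb => (hN a ha b hb).2.2.1) (fun a ha => (hN a ha a ha).2.2.2)
  have hNA : ∀ x ∈ N, x ∈ A := by
    intro x hx
    rw [hA, StarSubalgebra.mem_centralizer_iff]
    intro g hg
    rw [SetLike.mem_coe, StarSubalgebra.mem_centralizer_iff] at hg
    have h1 := (hg x hx).1
    have h2 := (hg x hx).2
    refine ⟨h1.symm, ?_⟩
    have := congrArg star h2
    simp only [star_mul, star_star] at this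
    exact this
  let _ : CommCStarAlgebra A :=
    { StarSubalgebra.cstarAlgebra A (h_closed := hcl) with
      mul_comm := fun x y => Subtype.ext (hcomm x x.2 y y.2) }
  let T : I → J → A := fun i j => ⟨Q (a i j), hNA _ (hQN _)⟩
  have hTc : ∀ i j, ((T i j : A) : H →L[ℂ] H) = Q (a i j) := fun i j => rfl
  let D : CStarMatrix J J A := CStarMatrix.ofMatrix (fun j k =>
    (if j = k then algebraMap ℂ A (((C * K) ^ 2 : ℝ) : ℂ) else 0) - ∑ i, star (T i j) * T i k)
  have hD : ∀ j k, D j k = (if j = k then algebraMap ℂ A (((C * K) ^ 2 : ℝ) : ℂ) else 0) -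
      ∑ i, star (T i j) * T i k := fun j k => rfl
  have hsa : IsSelfAdjoint D := by
    rw [IsSelfAdjoint]
    apply CStarMatrix.ext
    intro j k
    rw [CStarMatrix.star_apply, hD, hD, star_sub, star_sum]
    congr 1
    · by_cases hjk : j = k
      · rw [if_pos hjk, if_pos hjk.symm, ← algebraMap_star_comm]
        congr 1
        exact Complex.conj_ofReal _
      · rw [if_neg hjk, if_neg (Ne.symm hjk), star_zero]
    · apply sum_congr rfl
      intro i _
      rw [star_mul, star_star]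
  have hchar : ∀ (χ : characterSpace ℂ A) (v : J → ℂ), ∃ c : ℝ, 0 ≤ c ∧
      ∑ j, ∑ k, conj (v j) * χ (D j k) * v k = c := by
    intro χ v
    refine ⟨(C * K) ^ 2 * ∑ j, ‖v j‖ ^ 2 - ∑ i, ‖∑ j, χ (T i j) * v j‖ ^ 2, ?_, ?_⟩
    · rw [sub_nonneg]
      apply char_est (fun i j => χ (T i j)) (C * K)
      intro u v
      have e1 : ∑ i, ∑ j, (u i * v j) * χ (T i j) = χ (∑ i, ∑ j, (u i * v j) • T i j) := by
        rw [map_sum]
        apply sum_congr rfl
        intro i _
        rw [map_sum]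
        apply sum_congr rfl
        intro j _
        rw [map_smul, smul_eq_mul]
      have e2 : ((∑ i, ∑ j, (u i * v j) • T i j : A) : H →L[ℂ] H) =
          Q (∑ i, ∑ j, (u i * v j) • a i j) := by
        rw [AddSubmonoidClass.coe_finsetSum, map_sum]
        apply sum_congr rfl
        intro i _
        rw [AddSubmonoidClass.coe_finsetSum, map_sum]
        apply sum_congr rfl
        intro j _
        rw [map_smul]
        rfl
      have e3 : ‖χ (∑ i, ∑ j, (u i * v j) • T i j)‖ ≤ ‖∑ i, ∑ j, (u i * v j) • T i j‖ := by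
        refine (AlgHom.norm_apply_le_self_mul_norm_one χ _).trans ?_
        have : ‖(1 : A)‖ ≤ 1 := ContinuousLinearMap.norm_id_le
        nlinarith [norm_nonneg (∑ i, ∑ j, (u i * v j) • T i j)]
      have e4 : ‖∑ i, ∑ j, (u i * v j) • T i j‖ = ‖Q (∑ i, ∑ j, (u i * v j) • a i j)‖ := by
        rw [← e2]
        rfl
      rw [e1]
      refine e3.trans ?_
      rw [e4]
      refine (hQ _).trans ?_
      have := mul_le_mul_of_nonneg_left (ha u v) hC
      linarith
    · have e1 : ∀ j k, χ (D j k) = (if j = k then (((C * K) ^ 2 : ℝ) : ℂ) else 0) -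
          ∑ i, conj (χ (T i j)) * χ (T i k) := by
        intro j k
        rw [hD, map_sub, map_sum]
        congr 1
        · by_cases hjk : j = k
          · rw [if_pos hjk, if_pos hjk]
            exact AlgHomClass.commutes χ _
          · rw [if_neg hjk, if_neg hjk, map_zero]
        · apply sum_congr rfl
          intro i _
          rw [map_mul, map_star]
          rfl
      have e2 : ∀ j, ∑ k, conj (v j) * χ (D j k) * v k =
          (((C * K) ^ 2 : ℝ) : ℂ) * ((‖v j‖ ^ 2 : ℝ) : ℂ) -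
          ∑ i, conj (χ (T i j) * v j) * ∑ k, χ (T i k) * v k := by
        intro j
        have e3 : ∀ k, conj (v j) * χ (D j k) * v k =
            (if j = k then conj (v j) * (((C * K) ^ 2 : ℝ) : ℂ) * v k else 0) -
              ∑ i, conj (χ (T i j) * v j) * (χ (T i k) * v k) := by
          intro k
          rw [e1, mul_sub, sub_mul, mul_sum, sum_mul]
          congr 1
          · by_cases hjk : j = k
            · rw [if_pos hjk, if_pos hjk]
            · rw [if_neg hjk, if_neg hjk, mul_zero, zero_mul]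
          · apply sum_congr rfl
            intro i _
            rw [map_mul]
            ring
        rw [sum_congr rfl (fun k _ => e3 k), sum_sub_distrib, sum_ite_eq, if_pos (mem_univ _)]
        congr 1
        · rw [Complex.ofReal_pow ‖v j‖, ← Complex.conj_mul']
          ring
        · rw [sum_comm]
          apply sum_congr rfl
          intro i _
          rw [mul_sum]
      rw [sum_congr rfl (fun j _ => e2 j), sum_sub_distrib, Complex.ofReal_sub,
        Complex.ofReal_mul, Complex.ofReal_sum, mul_sum]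
      congr 1
      rw [sum_comm, Complex.ofReal_sum]
      apply sum_congr rfl
      intro i _
      rw [Complex.ofReal_pow, ← Complex.conj_mul', map_sum, sum_mul]
  obtain ⟨E, hE⟩ := sqrt_cs D hsa hchar
  have hDE : ∀ j k, ((D j k : A) : H →L[ℂ] H) =
      ∑ l, star ((E l j : A) : H →L[ℂ] H) * ((E l k : A) : H →L[ℂ] H) := by
    intro j k
    rw [← hE, CStarMatrix.mul_apply, AddSubmonoidClass.coe_finsetSum]
    apply sum_congr rfl
    intro l _
    rw [CStarMatrix.star_apply]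
    rfl
  have hDT : ∀ j k, ((D j k : A) : H →L[ℂ] H) =
      (if j = k then ((((C * K) ^ 2 : ℝ) : ℂ) • (1 : H →L[ℂ] H)) else 0) -
        ∑ i, star (Q (a i j)) * Q (a i k) := by
    intro j k
    rw [hD]
    have e1 : (((∑ i, star (T i j) * T i k : A)) : H →L[ℂ] H) =
        ∑ i, star (Q (a i j)) * Q (a i k) := by
      rw [AddSubmonoidClass.coe_finsetSum]
      rfl
    rw [AddSubgroupClass.coe_sub, e1]
    congr 1
    by_cases hjk : j = k
    · rw [if_pos hjk, if_pos hjk, Algebra.algebraMap_eq_smul_one]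
      rfl
    · rw [if_neg hjk, if_neg hjk]
      rfl
  have h1 := quad (fun l k => ((E l k : A) : H →L[ℂ] H)) ξ
  have h2 := quad (fun i k => Q (a i k)) ξ
  have h3 : ∑ j, ∑ k, ⟪ξ j, ((D j k : A) : H →L[ℂ] H) (ξ k)⟫_ℂ =
      (((C * K) ^ 2 * ∑ j, ‖ξ j‖ ^ 2 : ℝ) : ℂ) -
        ((∑ i, ‖∑ j, Q (a i j) (ξ j)‖ ^ 2 : ℝ) : ℂ) := by
    rw [← h2, Complex.ofReal_mul, Complex.ofReal_sum, mul_sum, ← sum_sub_distrib]
    apply sum_congr rfl
    intro j _
    have e1 : ∀ k, ⟪ξ j, ((D j k : A) : H →L[ℂ] H) (ξ k)⟫_ℂ =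
        (if j = k then (((C * K) ^ 2 : ℝ) : ℂ) * ⟪ξ j, ξ k⟫_ℂ else 0) -
          ⟪ξ j, (∑ i, star (Q (a i j)) * Q (a i k)) (ξ k)⟫_ℂ := by
      intro k
      rw [hDT, _root_.sub_apply, inner_sub_right]
      congr 1
      by_cases hjk : j = k
      · rw [if_pos hjk, if_pos hjk, _root_.smul_apply, inner_smul_right]
        rfl
      · rw [if_neg hjk, if_neg hjk, _root_.zero_apply, inner_zero_right]
    rw [sum_congr rfl (fun k _ => e1 k), sum_sub_distrib, sum_ite_eq, if_pos (mem_univ _), nsq]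
  simp_rw [hDE] at h3
  rw [h1, ← Complex.ofReal_sub] at h3
  have h4 := Complex.ofReal_injective h3
  have h5 : 0 ≤ ∑ i, ‖∑ j, ((E i j : A) : H →L[ℂ] H) (ξ j)‖ ^ 2 :=
    sum_nonneg fun i _ => by positivity
  linarith

end H68R2.BP
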